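import Pool.Agent.Helper97.Tate.Goals

/-!
Packet TATE-KRB (project FewPoints, MP_d3128a_ag).
-/

set_option autoImplicit false

namespace Pool.Agent.Helper65.Tate.KRB

open Pool.Agent.Helper97.Tate

/-- the map `(i, α, β) ↦ y_i (f (i, α, β) + f (i, α, β - 1))` after applying `σ` to the entries -/
noncomputable def Phi {K : Type} [Field K] {b M : ℕ} (s : K →+* K) (Y : Fin b → K)
    (f : Idx b M → K) : Idx b M → K :=
  fun p => Y p.1 * (s (f p) + if h : 1 ≤ (p.2.1.2 : ℕ) then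
    s (f (p.1, ⟨(p.2.1.1, ⟨(p.2.1.2 : ℕ) - 1, by omega⟩), by
      have := p.2.2
      simp only
      omega⟩)) else 0)

lemma Phi_add {K : Type} [Field K] {b M : ℕ} (s : K →+* K) (Y : Fin b → K)
    (f g : Idx b M → K) : Phi s Y (f + g) = Phi s Y f + Phi s Y g := by
  funext p
  simp only [Phi, Pi.add_apply, map_add]
  split_ifs <;> ring

lemma Phi_smul {K : Type} [Field K] {b M : ℕ} (s : K →+* K) (Y : Fin b → K)
    (c : K) (f : Idx b M → K) : Phi s Y (c • f) = s c • Phi s Y f := by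
  funext p
  simp only [Phi, Pi.smul_apply, smul_eq_mul, map_mul]
  split_ifs <;> ring

lemma Phi_zero {K : Type} [Field K] {b M : ℕ} (s : K →+* K) (Y : Fin b → K) :
    Phi s Y (0 : Idx b M → K) = 0 := by
  funext p
  simp only [Phi, Pi.zero_apply, map_zero]
  split_ifs <;> simp

theorem t (h1 : S_TRL) (h2 : S_SIG) : S_KRB := by
  intro k _ _ b κ M z x y ρ E j0 σ hκ hρ hz hx hy n hn
  obtain ⟨σK, hσC, hσ⟩ := h2 k σ
  obtain ⟨Y, hY⟩ : ∃ Y : Fin b → KK k,
      Y = fun i : Fin b => algebraMap (OO k) (KK k) (PowerSeries.C ((y i : kˣ) : k)) := ⟨_, rfl⟩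
  obtain ⟨c, hc⟩ : ∃ c : ℕ → k, c = fun j : ℕ =>
      (ρ : k) * (z : k) ^ ((κ : ℤ) * (E - 9 * (j : ℤ))) := ⟨_, rfl⟩
  obtain ⟨S, hS⟩ : ∃ S : Fin b → ℕ → Fin κ → PowerSeries (KK k), S = fun i j (r : Fin κ) =>
      evK (x i) (Th κ ((r : ℕ) : ℤ) (c j)) := ⟨_, rfl⟩
  have hS' : (fun (i : Fin b) (j : ℕ) (r : Fin κ) => evK (x i) (Th κ ((r : ℕ) : ℤ)
        ((ρ : k) * (z : k) ^ ((κ : ℤ) * (E - 9 * (j : ℤ)))))) = S := by
    rw [hS, hc]
  rw [hS', ← hY] at hn ⊢
  obtain ⟨R, hR⟩ : ∃ R : Submodule (KK k) (Idx b M → KK k),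
      R = Submodule.span (KK k) {u | ∃ j < n, ∃ r', u = colv M j0 Y S j r'} := ⟨_, rfl⟩
  rw [← hR] at hn ⊢
  have hz0 : (z : k) ≠ 0 := z.ne_zero
  have hρ0 : (ρ : k) ≠ 0 := by exact_mod_cast hρ
  have hc0 : ∀ j, c j ≠ 0 := fun j => by
    rw [hc]
    exact mul_ne_zero hρ0 (zpow_ne_zero _ hz0)
  -- the key identity
  have hkey : ∀ (j : ℕ) (r : Fin κ), colv M j0 Y S (j + 1) r =
      algebraMap (OO k) (KK k) (PowerSeries.C ((((z ^ 9) ^ ((r : ℕ) : ℤ) : kˣ) : k))) •
        Phi σK Y (colv M j0 Y S j r) := by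
    intro j r
    -- the coefficient of the next level
    have e1 : ∀ (i : Fin b) (α : ℕ), PowerSeries.coeff α (S i (j0 + (j + 1)) r) =
        algebraMap (OO k) (KK k) (PowerSeries.C ((((z ^ 9) ^ ((r : ℕ) : ℤ) : kˣ) : k))) *
          σK (PowerSeries.coeff α (S i (j0 + j) r)) := by
      intro i α
      have hr0 : (0 : ℤ) ≤ ((r : ℕ) : ℤ) := by positivity
      have hr1 : ((r : ℕ) : ℤ) < (κ : ℤ) := by exact_mod_cast r.isLt
      have e2 := hσ κ α ((r : ℕ) : ℤ) (c (j0 + j)) (x i) (x i * (z ^ 9)⁻¹) (by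
        rw [hx i]
        push_cast
        rw [zpow_neg, zpow_ofNat]) (hc0 _) hr0 hr1
      have e3 : σ (c (j0 + j)) = c (j0 + j) := by
        rw [hc]
        simp only
        rw [map_mul, map_zpow₀, hz, map_ratCast]
      rw [e3] at e2
      have e4 := h1 k κ ((r : ℕ) : ℤ) (c (j0 + j)) (x i) (z ^ 9) α (hc0 _) hr0 hr1
      have e5 : c (j0 + j) * ((((z ^ 9)⁻¹ : kˣ) : k)) ^ κ = c (j0 + (j + 1)) := by
        rw [hc]
        simp only
        push_cast
        rw [mul_assoc]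
        congr 1
        rw [← zpow_natCast, ← zpow_natCast, ← zpow_neg, ← zpow_mul, ← zpow_add₀ hz0]
        congr 1
        push_cast
        ring
      rw [e5] at e4
      rw [hS]
      simp only
      rw [e4, e2]
    have e6 : ∀ i, σK (Y i) = Y i := by
      intro i
      rw [hY]
      simp only
      rw [hσC, hy i]
    funext p
    simp only [Pi.smul_apply, smul_eq_mul, Phi, colv, e1, map_mul, map_pow, e6, map_natCast]
    split_ifs with h
    · have e7 : (j + 1).choose (p.2.1.2 : ℕ) =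
          j.choose ((p.2.1.2 : ℕ) - 1) + j.choose (p.2.1.2 : ℕ) := by
        obtain ⟨β', hβ'⟩ : ∃ β' : ℕ, (p.2.1.2 : ℕ) = β' + 1 := ⟨(p.2.1.2 : ℕ) - 1, by omega⟩
        rw [hβ', Nat.choose_succ_succ, Nat.add_sub_cancel]
      rw [e7]
      push_cast
      ring
    · have e7 : (j + 1).choose (p.2.1.2 : ℕ) = j.choose (p.2.1.2 : ℕ) := by
        have hβ : ((p.2.1.2 : ℕ)) = 0 := by omega
        rw [hβ, Nat.choose_zero_right, Nat.choose_zero_right]
      rw [e7]
      ring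
  -- `Phi` maps the span into itself
  have hstep : ∀ (j : ℕ) (r : Fin κ), j ≤ n → colv M j0 Y S j r ∈ R := by
    intro j r hj
    rcases Nat.lt_or_ge j n with h | h
    · rw [hR]
      exact Submodule.subset_span ⟨j, h, r, rfl⟩
    · have : j = n := le_antisymm hj h
      rw [this]
      exact hn r
  have hunit : ∀ r : Fin κ, algebraMap (OO k) (KK k)
      (PowerSeries.C ((((z ^ 9) ^ ((r : ℕ) : ℤ) : kˣ) : k))) ≠ 0 := by
    intro r
    rw [Ne, map_eq_zero_iff _ (IsFractionRing.injective (OO k) (KK k))]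
    rw [map_eq_zero_iff _ PowerSeries.C_injective]
    exact Units.ne_zero _
  have hPhi : ∀ u ∈ R, Phi σK Y u ∈ R := by
    intro u hu
    rw [hR] at hu
    refine Submodule.span_induction (p := fun u _ => Phi σK Y u ∈ R) ?_ ?_ ?_ ?_ hu
    · rintro v ⟨j, hj, r, rfl⟩
      have h3 := hstep (j + 1) r hj
      rw [hkey j r] at h3
      exact (Submodule.smul_mem_iff R (hunit r)).1 h3
    · rw [Phi_zero]
      exact R.zero_mem
    · intro f g _ _ hf hg
      rw [Phi_add]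
      exact R.add_mem hf hg
    · intro a f _ hf
      rw [Phi_smul]
      exact R.smul_mem _ hf
  intro r
  rw [hkey n r]
  exact R.smul_mem _ (hPhi _ (hn r))

end Pool.Agent.Helper65.Tate.KRB
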